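import Pool.Agent.Q95.CL.GoodL
import Pool.Agent.Q85.CL.Defs3

/-!
Project CL (helper85), job CL-AN1: at positive times the vorticity of a local solution is analytic
near every point.
-/

set_option autoImplicit false

open MeasureTheory Set Metric Filter Topology
open scoped ContDiff ENNReal

namespace Pool.Agent.Q225.CL

open H459R3.NS W221.NS W221.NS.B
open Pool.Agent.TH305.LW (Pth ms MollP pth_exists pth_speed2)
open Pool.Agent.TH305.DR (SS ST Om SS_succ SS_zero)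
open Pool.Agent.Q85.CC (SQ cur Gd hgt pr2)
open Pool.Agent.Q85.CL (LSl StmGdL)
open Pool.Agent.Q26.CC Pool.Agent.Q95.CL

/-- The dissipation near a path in a set where the gradient is bounded. -/
lemma ms_le {U : ℝ → V → V} {q t G : ℝ} {Y : ℝ → V} (hq : 0 < q)
    (hG : ∀ τ ∈ Ioc (t - q ^ 2) t, ∀ z ∈ ball (Y τ) (8 * q), gsq (U τ) z ≤ G) :
    ms U q Y (t - q ^ 2) t ≤ 4096 * G * q ^ 4 := by
  have hq2 : 0 < q ^ 2 := by positivity
  have hvol : ∀ x : V, volume.real (ball x (8 * q)) = 4096 * q ^ 3 := by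
    intro x
    rw [Measure.real, Real.volume_pi_ball _ (by positivity), Fintype.card_fin,
      ENNReal.toReal_ofReal (by positivity)]
    ring
  have hB : ∀ τ ∈ Ioc (t - q ^ 2) t, ‖B2 (Y τ) (8 * q) (U τ)‖ ≤ G * (4096 * q ^ 3) := by
    intro τ hτ
    unfold B2
    rw [← hvol (Y τ)]
    refine norm_setIntegral_le_of_norm_le_const measure_ball_lt_top fun z hz => ?_
    rw [Real.norm_eq_abs, abs_of_nonneg (W382.ME.gsq_nonneg _ z)]
    exact hG τ hτ z hz
  have h1 : ‖∫ τ in (t - q ^ 2)..t, B2 (Y τ) (8 * q) (U τ)‖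
      ≤ G * (4096 * q ^ 3) * |t - (t - q ^ 2)| := by
    refine intervalIntegral.norm_integral_le_of_norm_le_const fun τ hτ => hB τ ?_
    rwa [uIoc_of_le (by linarith)] at hτ
  have h2 : |t - (t - q ^ 2)| = q ^ 2 := by
    rw [sub_sub_cancel, abs_of_pos hq2]
  rw [h2] at h1
  have h3 := (le_abs_self _).trans h1
  unfold ms
  calc q⁻¹ * ∫ τ in (t - q ^ 2)..t, B2 (Y τ) (8 * q) (U τ)
      ≤ q⁻¹ * (G * (4096 * q ^ 3) * q ^ 2) := mul_le_mul_of_nonneg_left h3 (by positivity)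
    _ = 4096 * G * q ^ 4 := by field_simp

theorem stmGdL : StmGdL := by
  obtain ⟨εt, hεt, c, hc, hloc0⟩ := Pool.Agent.Y302.AN.t_loca Pool.Agent.Y455.AN.t_ead
    Pool.Agent.Y7.a_pta Pool.Agent.Y475.AN.t_hara
  have hloc : LocaP εt c := fun v q h1 h2 h3 n t ht x hx => (hloc0 v q h1 h2 h3 n t ht x hx).1
  obtain ⟨CM, hCM, hmol, -⟩ := Pool.Agent.TH305.LW.gen_all
  intro T E O u p hT hsol t ht y hy
  have hE0 : 0 ≤ E := by
    refine le_trans (setIntegral_nonneg hsol.openO.measurableSet fun x _ => ?_)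
      (hsol.en (T / 2) ⟨by linarith, by linarith⟩)
    unfold nsq
    exact Finset.sum_nonneg fun i _ => by positivity
  obtain ⟨ρ₀, hρ₀, hO⟩ : ∃ ρ₀ : ℝ, 0 < ρ₀ ∧ closedBall y ρ₀ ⊆ O :=
    nhds_basis_closedBall.mem_iff.1 (hsol.openO.mem_nhds hy)
  obtain ⟨ζ, κ, hκ, -, hζ1, hL⟩ := cut_exists hsol hE0 hρ₀ hO
  have hL3 := lsol3_of hL
  have hG : IsOpen (ball y (7 / 8 * ρ₀)) := isOpen_ball
  have hζG : ∀ x ∈ ball y (7 / 8 * ρ₀), ζ x = 1 := fun x hx => hζ1 x (ball_subset_closedBall hx)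
  have hEs : 0 ≤ √E := Real.sqrt_nonneg E
  obtain ⟨U, hU⟩ : ∃ U : ℝ → V → V, U = fun t x => ζ x • u t x := ⟨_, rfl⟩
  rw [← hU] at hL hL3
  have hgs : ContinuousOn (fun z : ℝ × V => gsq (U z.1) z.2) (Ioo 0 T ×ˢ univ) := by
    exact W335.MD.gsq_cont hL.smooth_u
  obtain ⟨G, hGb⟩ := (isCompact_Icc.prod (isCompact_closedBall y ρ₀)).exists_bound_of_continuousOn
    (hgs.mono (prod_mono (fun τ (hτ : τ ∈ Icc (t / 2) t) =>
      (⟨by linarith [hτ.1, ht.1], hτ.2.trans_lt ht.2⟩ : τ ∈ Ioo 0 T)) (subset_univ _)))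
  have hG0 : 0 ≤ G := by
    have h := hGb (t, y) ⟨⟨by linarith [ht.1], le_rfl⟩, mem_closedBall_self hρ₀.le⟩
    exact (norm_nonneg _).trans h
  -- the scale
  obtain ⟨q, hq, hq1, hq2, hq3⟩ : ∃ q : ℝ, 0 < q ∧ q ^ 2 < t / 2 ∧
      8 * q + 2 * CM * √E * √q < 7 / 8 * ρ₀ ∧ 4096 * G * q ^ 4 < εt := by
    have l1 : ∀ᶠ r : ℝ in 𝓝 0, r ^ 2 < t / 2 := by
      have h : Continuous fun r : ℝ => r ^ 2 := by fun_prop
      exact h.continuousAt.eventually_lt continuousAt_const (by simpa using ht.1)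
    have l2 : ∀ᶠ r : ℝ in 𝓝 0, 8 * r + 2 * CM * √E * √r < 7 / 8 * ρ₀ := by
      have h : Continuous fun r : ℝ => 8 * r + 2 * CM * √E * √r := by fun_prop
      exact h.continuousAt.eventually_lt continuousAt_const (by simpa using hρ₀)
    have l3 : ∀ᶠ r : ℝ in 𝓝 0, 4096 * G * r ^ 4 < εt := by
      have h : Continuous fun r : ℝ => 4096 * G * r ^ 4 := by fun_prop
      exact h.continuousAt.eventually_lt continuousAt_const (by simpa using hεt)
    have l4 : ∀ᶠ r : ℝ in 𝓝[>] 0, 0 < r := eventually_mem_nhdsWithin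
    obtain ⟨q, h1, h2, h3, h4⟩ := (l4.and ((l1.filter_mono nhdsWithin_le_nhds).and
      ((l2.filter_mono nhdsWithin_le_nhds).and (l3.filter_mono nhdsWithin_le_nhds)))).exists
    exact ⟨q, h1, h2, h3, h4⟩
  have hα : 0 < t / 2 := by linarith [ht.1]
  have hαt : t / 2 < t - q ^ 2 := by linarith
  obtain ⟨Y, hY, hYt⟩ := pth_exists hmol hκ hEs hL3 hq hα (by linarith) ht.2 y
  have hnear : ∀ τ ∈ Ioc (t - q ^ 2) t, ball (Y τ) (8 * q) ⊆ ball y (7 / 8 * ρ₀) := by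
    intro τ hτ
    have h1 := pth_speed2 hCM hmol hκ hEs hL3 hq le_rfl hα ht.2 hY (a := τ) (b := t)
      (by linarith [hτ.1]) hτ.2 le_rfl (by linarith [hτ.1, sq_nonneg q])
    rw [hYt] at h1
    apply ball_subset_ball'
    rw [dist_comm, dist_eq_norm]
    linarith
  have hms : ms U q Y (t - q ^ 2) t ≤ εt := by
    refine (ms_le hq (G := G) fun τ hτ z hz => ?_).trans hq3.le
    have h1 := hGb (τ, z) ⟨⟨by linarith [hτ.1], hτ.2⟩,
      ball_subset_closedBall (ball_subset_ball (by linarith) (hnear τ hτ hz))⟩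
    exact (le_abs_self _).trans h1
  have key := loc_endG hloc hL hq hα hαt ht.2 hY hYt
    (fun τ hτ => hnear τ ⟨hτ.1, hτ.2.le⟩) hms
  refine ⟨c, q / 16, hc, by positivity, ?_⟩
  intro z hz n i j
  have hz2 : z ∈ ball y (7 / 8 * ρ₀) := by
    apply ball_subset_ball _ hz
    have h1 : 0 ≤ 2 * CM * √E * √q := by positivity
    linarith
  have h1 := key z hz n i j
  rw [hU, om_cutG hG hζG u t hz2 n i j] at h1
  rw [SQ_eq]
  refine (show SS n (cur i j (u t)) z ≤ _ from h1).trans ?_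
  have hc0 : 0 < c := by linarith
  apply pow_le_pow_left₀ (by positivity)
  apply div_le_div_of_nonneg_left (by positivity) (by positivity)
  apply pow_le_pow_left₀ (by positivity)
  linarith

end Pool.Agent.Q225.CL
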