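import Pool.Agent.Q85.CL.Defs2
import Pool.Agent.Q225.CC.Bern
import Pool.Agent.Q199.VD.Cut
import Pool.Agent.Q186.AMf

/-!
Project CL: periodic solutions are local solutions after the normalisation of the pressure.
-/

set_option autoImplicit false

open MeasureTheory Set Metric Filter Topology
open scoped ContDiff Convolution
open H459R3.NS Pool.Agent.W268.NS Pool.Agent.Q67.VD Pool.Agent.Q199.VD

namespace Pool.Agent.Q225.CL

open Pool.Agent.Q85.CC Pool.Agent.Q85.CL Pool.Agent.Q225.CC

/-- The integral over the period cell is smooth in time. -/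
theorem smooth_int {T : ℝ} {F : ℝ → V → ℝ}
    (hF : ContDiffOn ℝ ∞ (fun z : ℝ × V => F z.1 z.2) (Ioo 0 T ×ˢ univ)) :
    ContDiffOn ℝ ∞ (fun t => ∫ y in cube, F t y) (Ioo 0 T) := by
  let χ : ContDiffBump (0 : V) := ⟨2, 3, by norm_num, by norm_num⟩
  have hχ1 : ∀ y ∈ cube, χ y = 1 := by
    intro y hy
    refine χ.one_of_mem_closedBall ?_
    rw [mem_closedBall, dist_zero_right, pi_norm_le_iff_of_nonneg (by norm_num)]
    intro i
    have h1 := hy.1 i
    have h2 := hy.2 i
    simp only [Pi.zero_apply, Pi.one_apply] at h1 h2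
    rw [Real.norm_eq_abs, abs_of_nonneg h1]
    exact h2.trans (by norm_num)
  have hg : ContDiffOn ℝ ∞ (fun z : ℝ × V => χ (-z.2) * F z.1 (-z.2)) (Ioo 0 T ×ˢ univ) := by
    refine ContDiffOn.mul ?_ ?_
    · exact (χ.contDiff.comp contDiff_snd.neg).contDiffOn
    · have h1 : ContDiffOn ℝ ∞ (fun z : ℝ × V => (z.1, -z.2)) (Ioo 0 T ×ˢ univ) :=
        (contDiff_fst.prodMk contDiff_snd.neg).contDiffOn
      exact hF.comp h1 fun z hz => ⟨hz.1, mem_univ _⟩
  have key := contDiffOn_convolution_right_with_param_comp (μ := (volume : Measure V))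
    (n := ⊤) (ContinuousLinearMap.lsmul ℝ ℝ) (v := fun _ : ℝ => (0 : V)) (s := Ioo 0 T)
    contDiffOn_const (f := cube.indicator fun _ : V => (1 : ℝ))
    (g := fun t z => χ (-z) * F t (-z)) (k := closedBall 0 3) isOpen_Ioo
    (isCompact_closedBall _ _) (fun t z _ hz => ?_) ?_ hg
  · refine key.congr fun t ht => ?_
    rw [convolution_def]
    have e : ∀ y : V, (ContinuousLinearMap.lsmul ℝ ℝ (cube.indicator (fun _ : V => (1 : ℝ)) y))
        (χ (-((0 : V) - y)) * F t (-((0 : V) - y))) = cube.indicator (fun y => F t y) y := by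
      intro y
      rw [zero_sub, neg_neg]
      by_cases hy : y ∈ cube
      · rw [indicator_of_mem hy, indicator_of_mem hy, hχ1 y hy]
        simp
      · rw [indicator_of_notMem hy, indicator_of_notMem hy]
        simp
    simp only [e]
    rw [integral_indicator (show MeasurableSet cube from measurableSet_Icc)]
  · have h1 : χ (-z) = 0 := by
      refine χ.zero_of_le_dist ?_
      rw [dist_zero_right, norm_neg]
      rw [mem_closedBall, dist_zero_right, not_le] at hz
      exact hz.le
    rw [h1, zero_mul]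
  · refine Integrable.locallyIntegrable ?_
    rw [integrable_indicator_iff (show MeasurableSet cube from measurableSet_Icc)]
    exact integrableOn_cube continuous_const

/-- Integrability on space-time. -/
theorem int_prod {T : ℝ} {F : ℝ → V → ℝ} {G : ℝ → ℝ} {a : V}
    (hF : ContinuousOn (fun z : ℝ × V => F z.1 z.2) (Ioo 0 T ×ˢ univ))
    (hG : IntegrableOn G (Ioo 0 T))
    (hb : ∀ t ∈ Ioo 0 T, ∫ y in ball a (1 / 2), |F t y| ≤ G t) :
    IntegrableOn (fun z : ℝ × V => F z.1 z.2) (Ioo 0 T ×ˢ ball a (1 / 2)) := by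
  have hm : AEStronglyMeasurable (fun z : ℝ × V => F z.1 z.2)
      ((volume.restrict (Ioo 0 T)).prod (volume.restrict (ball a (1 / 2)))) := by
    rw [Measure.prod_restrict]
    exact (hF.mono (prod_mono subset_rfl (subset_univ _))).aestronglyMeasurable
      (measurableSet_Ioo.prod measurableSet_ball)
  have key : Integrable (fun z : ℝ × V => F z.1 z.2)
      ((volume.restrict (Ioo 0 T)).prod (volume.restrict (ball a (1 / 2)))) := by
    rw [integrable_prod_iff hm]
    constructor
    · refine (ae_restrict_iff' measurableSet_Ioo).2 (Eventually.of_forall fun t ht => ?_)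
      have h1 : Continuous (F t) := by
        rw [← continuousOn_univ]
        exact hF.comp (f := fun y : V => (t, y)) (by fun_prop) fun y _ => ⟨ht, mem_univ _⟩
      have h2 : IntegrableOn (F t) (closedBall a (1 / 2)) :=
        h1.continuousOn.integrableOn_compact (isCompact_closedBall _ _)
      exact h2.mono_set ball_subset_closedBall
    · refine Integrable.mono' hG ?_ ?_
      · exact hm.norm.integral_prod_right'
      · refine (ae_restrict_iff' measurableSet_Ioo).2 (Eventually.of_forall fun t ht => ?_)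
        rw [Real.norm_eq_abs, abs_of_nonneg (integral_nonneg fun _ => norm_nonneg _)]
        exact hb t ht
  rw [Measure.prod_restrict] at key
  exact key

theorem openball_le {f : V → ℝ} (hf : Per f) (hc : Continuous f) (h0 : ∀ x, 0 ≤ f x) (a : V) :
    ∫ y in ball a (1 / 2), f y ≤ ∫ y in cube, f y := by
  refine le_trans ?_ (ball_le hf hc h0 a le_rfl)
  exact setIntegral_mono_set (hc.continuousOn.integrableOn_compact (isCompact_closedBall _ _))
    (Eventually.of_forall h0) (Eventually.of_forall ball_subset_closedBall)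

/-- Periodic solutions are local solutions. -/
theorem stmPer : StmPer := by
  intro T u p hT h a
  have hcT : ∀ t, t ∈ Ioo 0 T → t ∈ Ico 0 T := fun t ht => ⟨ht.1.le, ht.2⟩
  have hsm_p : ContDiffOn ℝ ∞ (fun z : ℝ × V => p z.1 z.2) (Ioo 0 T ×ˢ univ) :=
    mono_Ioo h.smooth_p le_rfl
  have hsm_u : ContDiffOn ℝ ∞ (fun z : ℝ × V => u z.1 z.2) (Ioo 0 T ×ˢ univ) :=
    h.smooth_u.mono (prod_mono Ioo_subset_Ico_self subset_rfl)
  have hsm_c := smooth_int hsm_p
  have hsp : ∀ t ∈ Ioo 0 T, ∀ i, SP (fun y => u t y i) := fun t ht i => h.sp (hcT t ht) i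
  have hnsq : ∀ t ∈ Ioo 0 T, SP (W221.NS.nsq (u t)) := by
    intro t ht
    have h1 : SP (fun z => ∑ j, u t z j ^ 2) := by
      refine SP.sum fun j _ => ?_
      have := (hsp t ht j).mul (hsp t ht j)
      simpa only [sq] using this
    exact h1
  have hgsq : ∀ t ∈ Ioo 0 T, SP (W221.NS.gsq (u t)) := by
    intro t ht
    have h1 : SP (fun z => ∑ i, ∑ j, pd j (fun y => u t y i) z ^ 2) := by
      refine SP.sum fun i _ => SP.sum fun j _ => ?_
      have := ((hsp t ht i).pd j).mul ((hsp t ht i).pd j)
      simpa only [sq] using this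
    exact h1
  have hgen : ∀ t ∈ Ioo 0 T, ∫ x in cube, W221.NS.gsq (u t) x = enstrophy (u t) := by
    intro t ht
    unfold W221.NS.gsq enstrophy
    have i1 : ∀ i ∈ (Finset.univ : Finset (Fin 3)),
        IntegrableOn (fun x => ∑ j, pd j (fun y => u t y i) x ^ 2) cube := fun i _ =>
      integrableOn_cube (continuous_finsetSum _ fun j _ => ((hsp t ht i).pd j).cont.pow 2)
    have i2 : ∀ i, ∀ j ∈ (Finset.univ : Finset (Fin 3)),
        IntegrableOn (fun x => pd j (fun y => u t y i) x ^ 2) cube := fun i j _ =>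
      integrableOn_cube (((hsp t ht i).pd j).cont.pow 2)
    rw [integral_finsetSum _ i1]
    exact Finset.sum_congr rfl fun i _ => integral_finsetSum _ (i2 i)
  have hnen : ∀ t ∈ Ioo 0 T, ∫ x in cube, W221.NS.nsq (u t) x = energy (u t) := by
    intro t ht
    unfold W221.NS.nsq energy
    have i1 : ∀ i ∈ (Finset.univ : Finset (Fin 3)),
        IntegrableOn (fun x => u t x i ^ 2) cube := fun i _ =>
      integrableOn_cube ((hsp t ht i).cont.pow 2)
    rw [integral_finsetSum _ i1]
  have hens := Q186.AM.int_enst h one_pos hT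
  refine ⟨energy (u 0), fun t x => p t x - ∫ y in cube, p t y, ?_⟩
  refine ⟨⟨isOpen_ball, hsm_u, ?_, ?_, ?_⟩, ?_, ?_, ?_, ?_⟩
  · refine hsm_p.sub ?_
    exact hsm_c.comp contDiff_fst.contDiffOn fun z hz => hz.1
  · intro t ht x _
    exact h.divfree t (hcT t ht) x
  · intro t ht x _ i
    have h1 : pd i (fun x => p t x - ∫ y in cube, p t y) = pd i (p t) := pd_sub_const _ _ _
    rw [h1, h.momentum t ht x i, one_mul]
  · intro t ht
    have h2 : IntegrableOn (W221.NS.nsq (u t)) (closedBall a (1 / 2)) :=
      (hnsq t ht).cont.continuousOn.integrableOn_compact (isCompact_closedBall _ _)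
    exact h2.mono_set ball_subset_closedBall
  · intro t ht
    refine (openball_le (hnsq t ht).per (hnsq t ht).cont (fun x => ?_) a).trans ?_
    · exact Finset.sum_nonneg fun i _ => sq_nonneg _
    · rw [hnen t ht]
      exact h.energy_le one_pos (hcT t ht)
  · refine int_prod (F := fun t x => W221.NS.gsq (u t) x) ?_ hens fun t ht => ?_
    · unfold W221.NS.gsq
      refine continuousOn_finsetSum _ fun i _ => continuousOn_finsetSum _ fun j _ => ?_
      have h1 := (contDiffOn_pd (f := fun s y => u s y i) (h.smooth_c i) j).continuousOn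
      exact (h1.mono (prod_mono Ioo_subset_Ico_self subset_rfl)).pow 2
    · have h0 : ∀ x, 0 ≤ W221.NS.gsq (u t) x := fun x =>
        Finset.sum_nonneg fun i _ => Finset.sum_nonneg fun j _ => sq_nonneg _
      rw [← hgen t ht]
      simp only [abs_of_nonneg (h0 _)]
      exact openball_le (hgsq t ht).per (hgsq t ht).cont h0 a
  · refine int_prod (F := fun t x => p t x - ∫ y in cube, p t y)
      (G := fun t => √C4 * enstrophy (u t)) ?_ (hens.const_mul _) fun t ht => ?_
    · refine hsm_p.continuousOn.sub ?_
      exact hsm_c.continuousOn.comp continuous_fst.continuousOn fun z hz => hz.1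
    · have hpp := sp_sub_const (h.sp_p (hcT t ht)) (∫ y in cube, p t y)
      refine (openball_le (f := fun x => |p t x - ∫ y in cube, p t y|) (fun i x => ?_)
        hpp.cont.abs (fun x => abs_nonneg _) a).trans ?_
      · have := hpp.per i x
        simp only at this ⊢
        rw [this]
      · refine (int_mean_le (h.sp_p (hcT t ht))).trans ?_
        refine mul_le_mul_of_nonneg_left ?_ (Real.sqrt_nonneg _)
        rw [← hgen t ht]
        exact integral_mono_of_nonneg (Eventually.of_forall fun y => abs_nonneg _)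
          (integrableOn_cube (hgsq t ht).cont) (Eventually.of_forall fun y => abs_lap_press h ht y)

end Pool.Agent.Q225.CL
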